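import Pool.Agent.Helper52_ABB.E6Defs

set_option autoImplicit false

/-!
# CNT: the count of the values along the boundary word (pure arithmetic)
-/

namespace Pool.Agent.ABA.B.H99

open Pool.Agent.ABA.B.H52

/-- sums over half open intervals -/
def Sg (v : ℕ → ℤ) (x y : ℕ) : ℤ := ∑ t ∈ Finset.Ico x y, v t

theorem Sg_add (v : ℕ → ℤ) {x y z : ℕ} (h1 : x ≤ y) (h2 : y ≤ z) :
    Sg v x z = Sg v x y + Sg v y z := (Finset.sum_Ico_consecutive v h1 h2).symm

theorem Sg_self (v : ℕ → ℤ) (x : ℕ) : Sg v x x = 0 := by simp [Sg]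

theorem Sg_one (v : ℕ → ℤ) (x : ℕ) : Sg v x (x + 1) = v x := by simp [Sg]

theorem Sg_nonpos (v : ℕ → ℤ) {x y : ℕ} (h : ∀ t, x ≤ t → t < y → v t ≤ 0) : Sg v x y ≤ 0 := by
  unfold Sg
  refine Finset.sum_nonpos ?_
  intro t ht
  rw [Finset.mem_Ico] at ht
  exact h t ht.1 ht.2

theorem Sg_flat (v : ℕ → ℤ) {x y : ℕ} (hxy : x ≤ y) (h : ∀ t, x ≤ t → t < y → v t ≤ -2) :
    Sg v x y ≤ -2 * ((y : ℤ) - x) := by
  induction y with
  | zero => 
    have : x = 0 := by omega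
    subst this
    simp [Sg]
  | succ y ih =>
    rcases Nat.lt_or_ge x (y + 1) with h1 | h1
    · have h2 := ih (by omega) (fun t h3 h4 => h t h3 (by omega))
      rw [Sg_add v (by omega : x ≤ y) (Nat.le_succ y), Sg_one]
      have h3 := h y (by omega) (by omega)
      push_cast
      linarith
    · have : x = y + 1 := by omega
      subst this
      simp [Sg]

theorem Icc_eq (v : ℕ → ℤ) (x y : ℕ) : ∑ j ∈ Finset.Icc x y, v j = Sg v x (y + 1) := by
  unfold Sg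
  refine Finset.sum_congr ?_ (fun _ _ => rfl)
  ext t
  simp only [Finset.mem_Icc, Finset.mem_Ico]
  omega

theorem Ioo_eq (v : ℕ → ℤ) (x y : ℕ) : ∑ j ∈ Finset.Ioo x y, v j = Sg v (x + 1) y := by
  unfold Sg
  refine Finset.sum_congr ?_ (fun _ _ => rfl)
  ext t
  simp only [Finset.mem_Ioo, Finset.mem_Ico]
  omega

section

variable {o m : ℕ → ℕ} {b e : ℕ} {v : ℕ → ℤ} {M Ap tcm tcp secm secp : ℕ → Prop}

/-- the facts about a full tip -/
theorem tipF (h : Cnt o m b e v M Ap tcm tcp secm secp) (j : ℕ) (hj : b < o j) (h0 : o 0 ≤ b)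
    (he : m j < e) :
    Sg v (o j) (m j + 1) ≤ 2 ∧ (Sg v (o j) (m j + 1) = 2 → M j ∧ secm j ∧ secp j) ∧
    (Sg v (o j) (m j + 1) = 1 → Ap j ∨ (secm j ∧ secp j)) ∧
    (tcm j ∨ tcp j → Sg v (o j) (m j + 1) ≤ 0) ∧
    (tcm j → tcp j → Sg v (o j) (m j + 1) ≤ -1) := by
  obtain ⟨i, rfl⟩ : ∃ i, j = i + 1 := by
    rcases j with _ | i
    · omega
    · exact ⟨i, rfl⟩
  rw [← Icc_eq]
  refine ⟨h.t3 i hj he, fun h2 => ?_, h.t5 i hj he, h.t2 i hj he, h.t1 i hj he⟩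
  have := h.t4 i hj he h2
  exact ⟨this, h.Ms i this⟩

/-- the facts about a full leg -/
theorem legF (h : Cnt o m b e v M Ap tcm tcp secm secp) (j : ℕ) (hj : b < m j)
    (he : o (j + 1) < e) :
    Sg v (m j + 1) (o (j + 1)) ≤ 0 ∧
    (Sg v (m j + 1) (o (j + 1)) = 0 → secp j → tcm (j + 1)) ∧
    (Sg v (m j + 1) (o (j + 1)) = 0 → secm (j + 1) → tcp j) := by
  rw [← Ioo_eq]
  refine ⟨?_, h.s2 j hj he, h.s3 j hj he⟩
  rw [Ioo_eq]
  exact Sg_nonpos v fun t h1 h2 => h.leg j t (by omega) h2 (by omega) (by omega)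

theorem om_lt (h : Cnt o m b e v M Ap tcm tcp secm secp) {i j : ℕ} (hij : i < j) : m i < o j := by
  obtain ⟨k, rfl⟩ : ∃ k, j = i + 1 + k := ⟨j - (i + 1), by omega⟩
  induction k with
  | zero => exact (h.om i).2
  | succ k ih =>
    have h1 := h.om (i + 1 + k)
    have h2 := ih (by omega)
    have : i + 1 + (k + 1) = i + 1 + k + 1 := by ring
    rw [this]
    omega

/-- the sum over a left cut tip -/
theorem leftcut (h : Cnt o m b e v M Ap tcm tcp secm secp) (a : ℕ) (h1 : o a ≤ b) (h2 : b < m a)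
    (h3 : m a < e) : Sg v (b + 1) (m a + 1) ≤ 1 ∧ (tcp a → Sg v (b + 1) (m a + 1) ≤ -1) ∧
    (Sg v (b + 1) (m a + 1) = 1 → m a = b + 1 ∧ v (m a) = 1) := by
  have e1 : Sg v (b + 1) (m a + 1) = Sg v (b + 1) (m a) + v (m a) := by
    rw [Sg_add v (by omega : b + 1 ≤ m a) (Nat.le_succ _), Sg_one]
  have e2 := Sg_flat v (by omega : b + 1 ≤ m a)
    (fun t h4 h5 => h.flat a t (by omega) h5 (by omega) (by omega))
  have e3 := h.pe a (by omega) h2 h3
  have e4 : ((b + 1 : ℕ) : ℤ) ≤ (m a : ℤ) := by exact_mod_cast h2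
  refine ⟨by linarith [e3.1], fun h4 => by linarith [e3.2 h4], fun h4 => ?_⟩
  have e5 := e3.1
  have e6 : (m a : ℤ) = ((b + 1 : ℕ) : ℤ) := by linarith
  have e7 : m a = b + 1 := by exact_mod_cast e6
  refine ⟨e7, ?_⟩
  rw [e7] at e1 h4
  rw [e1, Sg_self] at h4
  rw [e7]
  linarith

/-- the sum over a right cut tip -/
theorem rightcut (h : Cnt o m b e v M Ap tcm tcp secm secp) (z : ℕ) (h0 : o 0 ≤ b) (h1 : b < o z)
    (h2 : o z < e) (h3 : e ≤ m z) : Sg v (o z) e ≤ 1 ∧ (tcm z → Sg v (o z) e ≤ -1) ∧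
    (Sg v (o z) e = 1 → e = o z + 1 ∧ v (o z) = 1) := by
  obtain ⟨i, rfl⟩ : ∃ i, z = i + 1 := by
    rcases z with _ | i
    · omega
    · exact ⟨i, rfl⟩
  have e1 : Sg v (o (i + 1)) e = v (o (i + 1)) + Sg v (o (i + 1) + 1) e := by
    rw [Sg_add v (Nat.le_succ _) (by omega : o (i + 1) + 1 ≤ e), Sg_one]
  have e2 := Sg_flat v (by omega : o (i + 1) + 1 ≤ e)
    (fun t h4 h5 => h.flat (i + 1) t (by omega) (by omega) (by omega) (by omega))
  have e3 := h.me i (by omega) h1 h2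
  have e4 : ((o (i + 1) + 1 : ℕ) : ℤ) ≤ (e : ℤ) := by exact_mod_cast h2
  refine ⟨by linarith [e3.1], fun h4 => by linarith [e3.2 h4], fun h4 => ?_⟩
  have e5 := e3.1
  have e6 : (e : ℤ) = ((o (i + 1) + 1 : ℕ) : ℤ) := by linarith
  have e7 : e = o (i + 1) + 1 := by exact_mod_cast e6
  refine ⟨e7, ?_⟩
  rw [e7] at e1 h4
  rw [e1, Sg_self] at h4
  linarith


/-- the invariant of the count from left to right -/
def Inv (b : ℕ) (v : ℕ → ℤ) (o : ℕ → ℕ) (tcm secm : ℕ → Prop) (a : ℕ) (ε : ℤ) (j : ℕ) : Prop :=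
  2 * Sg v (b + 1) (o j) ≤ 2 * ((j : ℤ) - a) + ε + 1 ∧
  (2 * ((j : ℤ) - a) + ε < 2 * Sg v (b + 1) (o j) → tcm j) ∧
  (secm j → 2 * Sg v (b + 1) (o j) ≤ 2 * ((j : ℤ) - a) + ε - 1)

/-- the sum before a full first tip -/
theorem pre_nonpos (h : Cnt o m b e v M Ap tcm tcp secm secp) (a : ℕ) (h0 : o 0 ≤ b)
    (ha0 : ∀ i < a, m i ≤ b) (h2 : b < o a) (h3 : o a ≤ e) : Sg v (b + 1) (o a) ≤ 0 := by
  obtain ⟨i, rfl⟩ : ∃ i, a = i + 1 := by
    rcases a with _ | i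
    · omega
    · exact ⟨i, rfl⟩
  have := ha0 i (by omega)
  exact Sg_nonpos v fun t h4 h5 => h.leg i t (by omega) h5 (by omega) (by omega)

theorem inv_base (h : Cnt o m b e v M Ap tcm tcp secm secp) (a : ℕ) (h0 : o 0 ≤ b)
    (ha : b < m a) (ha0 : ∀ i < a, m i ≤ b) (he : o (a + 1) < e) (ε : ℤ)
    (hε : (ε = 0 ∧ ¬ (b < o a ∧ Sg v (o a) (m a + 1) = 2)) ∨
      (ε = 1 ∧ b < o a ∧ Sg v (o a) (m a + 1) = 2)) :
    Inv b v o tcm secm a ε (a + 1) := by
  have hom := h.om a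
  have hL := legF h a ha he
  have e0 : Sg v (b + 1) (o (a + 1)) = Sg v (b + 1) (m a + 1) + Sg v (m a + 1) (o (a + 1)) :=
    Sg_add v (by omega) (by omega)
  by_cases hc : b < o a
  · have hT := tipF h a hc h0 (by omega)
    have hp := pre_nonpos h a h0 ha0 hc (by omega)
    have e1 : Sg v (b + 1) (m a + 1) = Sg v (b + 1) (o a) + Sg v (o a) (m a + 1) :=
      Sg_add v (by omega) (by omega)
    rw [e1] at e0
    obtain ⟨T1, T2, T3, T4, T5⟩ := hT
    obtain ⟨L1, L2, L3⟩ := hL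
    unfold Inv
    push_cast
    rw [e0]
    refine ⟨?_, fun hx => ?_, fun hs => ?_⟩
    · rcases hε with ⟨h5, h6⟩ | ⟨h5, h6, h7⟩
      · have h8 : Sg v (o a) (m a + 1) ≠ 2 := fun h9 => h6 ⟨hc, h9⟩
        omega
      · omega
    · rcases hε with ⟨h5, h6⟩ | ⟨h5, h6, h7⟩
      · have h8 : Sg v (o a) (m a + 1) ≠ 2 := fun h9 => h6 ⟨hc, h9⟩
        omega
      · have h8 : Sg v (m a + 1) (o (a + 1)) = 0 := by omega
        exact L2 h8 (T2 h7).2.2
    · by_cases h9 : Sg v (m a + 1) (o (a + 1)) = 0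
      · have h10 := T4 (Or.inr (L3 h9 hs))
        rcases hε with ⟨h5, h6⟩ | ⟨h5, h6, h7⟩
        · omega
        · omega
      · rcases hε with ⟨h5, h6⟩ | ⟨h5, h6, h7⟩
        · have h8 : Sg v (o a) (m a + 1) ≠ 2 := fun h9 => h6 ⟨hc, h9⟩
          omega
        · omega
  · have hP := leftcut h a (by omega) ha (by omega)
    have hε0 : ε = 0 := by
      rcases hε with ⟨h5, _⟩ | ⟨_, h6, _⟩
      · exact h5
      · exact absurd h6 hc
    obtain ⟨P1, P2, _⟩ := hP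
    obtain ⟨L1, L2, L3⟩ := hL
    unfold Inv
    push_cast
    rw [e0]
    refine ⟨by omega, fun hx => by omega, fun hs => ?_⟩
    by_cases h9 : Sg v (m a + 1) (o (a + 1)) = 0
    · have h10 := P2 (L3 h9 hs)
      omega
    · omega

theorem inv_step (h : Cnt o m b e v M Ap tcm tcp secm secp) (a j : ℕ) (h0 : o 0 ≤ b)
    (ha : b < m a) (haj : a < j) (he : o (j + 1) < e) (ε : ℤ)
    (hI : Inv b v o tcm secm a ε j) : Inv b v o tcm secm a ε (j + 1) := by
  have hj : b < o j := lt_trans ha (om_lt h haj)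
  have hom := h.om j
  obtain ⟨L1, L2, L3⟩ := legF h j (by omega) he
  obtain ⟨T1, T2, T3, T4, T5⟩ := tipF h j hj h0 (by omega)
  have e0 : Sg v (b + 1) (o (j + 1)) = Sg v (b + 1) (o j) + Sg v (o j) (m j + 1) +
      Sg v (m j + 1) (o (j + 1)) := by
    rw [← Sg_add v (by omega) (by omega), ← Sg_add v (by omega) (by omega)]
  obtain ⟨I1, I2, I3⟩ := hI
  unfold Inv
  push_cast
  rw [e0]
  rcases (by omega : Sg v (o j) (m j + 1) = 2 ∨ Sg v (o j) (m j + 1) = 1 ∨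
    Sg v (o j) (m j + 1) ≤ 0) with hT | hT | hT
  · have h1 := I3 (T2 hT).2.1
    refine ⟨by omega, fun hx => ?_, fun hs => ?_⟩
    · have h8 : Sg v (m j + 1) (o (j + 1)) = 0 := by omega
      exact L2 h8 (T2 hT).2.2
    · by_cases h9 : Sg v (m j + 1) (o (j + 1)) = 0
      · have h10 := T4 (Or.inr (L3 h9 hs))
        omega
      · omega
  · have h1 : 2 * Sg v (b + 1) (o j) ≤ 2 * ((j : ℤ) - a) + ε := by
      by_contra h2
      have h3 := T4 (Or.inl (I2 (by omega)))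
      omega
    refine ⟨by omega, fun hx => by omega, fun hs => ?_⟩
    by_cases h9 : Sg v (m j + 1) (o (j + 1)) = 0
    · have h10 := T4 (Or.inr (L3 h9 hs))
      omega
    · omega
  · refine ⟨by omega, fun hx => by omega, fun hs => by omega⟩

theorem inv_all (h : Cnt o m b e v M Ap tcm tcp secm secp) (a : ℕ) (h0 : o 0 ≤ b)
    (ha : b < m a) (ha0 : ∀ i < a, m i ≤ b) (ε : ℤ)
    (hε : (ε = 0 ∧ ¬ (b < o a ∧ Sg v (o a) (m a + 1) = 2)) ∨
      (ε = 1 ∧ b < o a ∧ Sg v (o a) (m a + 1) = 2)) :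
    ∀ k, o (a + 1 + k) < e → Inv b v o tcm secm a ε (a + 1 + k) := by
  intro k
  induction k with
  | zero => intro he; exact inv_base h a h0 ha ha0 he ε hε
  | succ k ih =>
    intro he
    have h1 := h.om (a + 1 + k)
    have h2 : a + 1 + (k + 1) = a + 1 + k + 1 := by ring
    rw [h2] at he ⊢
    exact inv_step h a (a + 1 + k) h0 ha (by omega) he ε (ih (by omega))

/-- the main bound for a block: `a` is the first, `z` the last tip which is touched -/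
theorem block_bound (h : Cnt o m b e v M Ap tcm tcp secm secp) (a z : ℕ) (h0 : o 0 ≤ b)
    (ha : b < m a) (ha0 : ∀ i < a, m i ≤ b) (haz : a ≤ z) (hz : o z < e) (hz1 : e ≤ o (z + 1))
    (_hbe : b < e) :
    ∃ ε δ : ℤ, ((ε = 0 ∧ ¬ (b < o a ∧ Sg v (o a) (m a + 1) = 2)) ∨
      (ε = 1 ∧ b < o a ∧ Sg v (o a) (m a + 1) = 2)) ∧
      ((δ = 0 ∧ ¬ (m z < e ∧ Sg v (o z) (m z + 1) = 2)) ∨
      (δ = 1 ∧ m z < e ∧ Sg v (o z) (m z + 1) = 2)) ∧
      2 * Sg v (b + 1) e ≤ 2 * ((z : ℤ) + 1 - a) + ε + δ := by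
  obtain ⟨ε, hε⟩ : ∃ ε : ℤ, (ε = 0 ∧ ¬ (b < o a ∧ Sg v (o a) (m a + 1) = 2)) ∨
      (ε = 1 ∧ b < o a ∧ Sg v (o a) (m a + 1) = 2) := by
    by_cases h1 : b < o a ∧ Sg v (o a) (m a + 1) = 2
    · exact ⟨1, Or.inr ⟨rfl, h1⟩⟩
    · exact ⟨0, Or.inl ⟨rfl, h1⟩⟩
  obtain ⟨δ, hδ⟩ : ∃ δ : ℤ, (δ = 0 ∧ ¬ (m z < e ∧ Sg v (o z) (m z + 1) = 2)) ∨
      (δ = 1 ∧ m z < e ∧ Sg v (o z) (m z + 1) = 2) := by
    by_cases h1 : m z < e ∧ Sg v (o z) (m z + 1) = 2
    · exact ⟨1, Or.inr ⟨rfl, h1⟩⟩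
    · exact ⟨0, Or.inl ⟨rfl, h1⟩⟩
  refine ⟨ε, δ, hε, hδ, ?_⟩
  have hom := h.om z
  rcases Nat.lt_or_ge a z with hlt | hge
  · -- at least two tips
    have hI : Inv b v o tcm secm a ε z := by
      obtain ⟨k, rfl⟩ : ∃ k, z = a + 1 + k := ⟨z - (a + 1), by omega⟩
      exact inv_all h a h0 ha ha0 ε hε k hz
    have hj : b < o z := lt_trans ha (om_lt h hlt)
    obtain ⟨I1, I2, I3⟩ := hI
    by_cases hc : m z < e
    · obtain ⟨T1, T2, T3, T4, T5⟩ := tipF h z hj h0 hc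
      have e0 : Sg v (b + 1) e = Sg v (b + 1) (o z) + Sg v (o z) (m z + 1) +
          Sg v (m z + 1) e := by
        rw [← Sg_add v (by omega) (by omega), ← Sg_add v (by omega) (by omega)]
      have e1 : Sg v (m z + 1) e ≤ 0 :=
        Sg_nonpos v fun t h4 h5 => h.leg z t (by omega) (by omega) (by omega) h5
      rw [e0]
      rcases (by omega : Sg v (o z) (m z + 1) = 2 ∨ Sg v (o z) (m z + 1) = 1 ∨
        Sg v (o z) (m z + 1) ≤ 0) with hT | hT | hT
      · have h1 := I3 (T2 hT).2.1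
        rcases hδ with ⟨h5, h6⟩ | ⟨h5, h6, h7⟩
        · exact absurd ⟨hc, hT⟩ h6
        · omega
      · have h1 : 2 * Sg v (b + 1) (o z) ≤ 2 * ((z : ℤ) - a) + ε := by
          by_contra h2
          have h3 := T4 (Or.inl (I2 (by omega)))
          omega
        rcases hδ with ⟨h5, h6⟩ | ⟨h5, h6, h7⟩
        · omega
        · omega
      · rcases hδ with ⟨h5, h6⟩ | ⟨h5, h6, h7⟩
        · omega
        · omega
    · obtain ⟨P1, P2, _⟩ := rightcut h z h0 hj hz (by omega)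
      have e0 : Sg v (b + 1) e = Sg v (b + 1) (o z) + Sg v (o z) e :=
        Sg_add v (by omega) (by omega)
      rw [e0]
      have hδ0 : δ = 0 := by
        rcases hδ with ⟨h5, _⟩ | ⟨_, h6, _⟩
        · exact h5
        · exact absurd h6 hc
      by_cases h9 : Sg v (o z) e = 1
      · have h1 : 2 * Sg v (b + 1) (o z) ≤ 2 * ((z : ℤ) - a) + ε := by
          by_contra h2
          have h3 := P2 (I2 (by omega))
          omega
        omega
      · omega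
  · -- one tip
    have haz' : a = z := by omega
    subst haz'
    by_cases hc : b < o a
    · have hp := pre_nonpos h a h0 ha0 hc (by omega)
      by_cases hd : m a < e
      · obtain ⟨T1, T2, T3, T4, T5⟩ := tipF h a hc h0 hd
        have e0 : Sg v (b + 1) e = Sg v (b + 1) (o a) + Sg v (o a) (m a + 1) +
            Sg v (m a + 1) e := by
          rw [← Sg_add v (by omega) (by omega), ← Sg_add v (by omega) (by omega)]
        have e1 : Sg v (m a + 1) e ≤ 0 :=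
          Sg_nonpos v fun t h4 h5 => h.leg a t (by omega) (by omega) (by omega) h5
        rw [e0]
        rcases hε with ⟨h5, h6⟩ | ⟨h5, h6, h7⟩
        · have : Sg v (o a) (m a + 1) ≠ 2 := fun h9 => h6 ⟨hc, h9⟩
          rcases hδ with ⟨h8, _⟩ | ⟨h8, _⟩ <;> omega
        · rcases hδ with ⟨h8, h9⟩ | ⟨h8, _⟩
          · exact absurd ⟨hd, h7⟩ h9
          · omega
      · obtain ⟨P1, P2, _⟩ := rightcut h a h0 hc hz (by omega)
        have e0 : Sg v (b + 1) e = Sg v (b + 1) (o a) + Sg v (o a) e :=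
          Sg_add v (by omega) (by omega)
        rw [e0]
        rcases hε with ⟨h5, h6⟩ | ⟨h5, h6, h7⟩ <;> rcases hδ with ⟨h8, _⟩ | ⟨h8, _⟩ <;> omega
    · by_cases hd : m a < e
      · obtain ⟨P1, P2, _⟩ := leftcut h a (by omega) ha hd
        have e0 : Sg v (b + 1) e = Sg v (b + 1) (m a + 1) + Sg v (m a + 1) e :=
          Sg_add v (by omega) (by omega)
        have e1 : Sg v (m a + 1) e ≤ 0 :=
          Sg_nonpos v fun t h4 h5 => h.leg a t (by omega) (by omega) (by omega) h5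
        rw [e0]
        rcases hε with ⟨h5, h6⟩ | ⟨h5, h6, h7⟩ <;> rcases hδ with ⟨h8, _⟩ | ⟨h8, _⟩ <;> omega
      · have e1 : Sg v (b + 1) e ≤ 0 := by
          refine Sg_nonpos v fun t h4 h5 => ?_
          have := h.flat a t (by omega) (by omega) (by omega) h5
          omega
        rcases hε with ⟨h5, h6⟩ | ⟨h5, h6, h7⟩ <;> rcases hδ with ⟨h8, _⟩ | ⟨h8, _⟩ <;> omega

/-- the first and the last tip of a block -/
theorem touch (h : Cnt o m b e v M Ap tcm tcp secm secp) (h0 : o 0 = 0) (hbe : b < e)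
    (h4 : 4 ≤ Sg v (b + 1) e) : ∃ a z, b < m a ∧ (∀ i < a, m i ≤ b) ∧ a ≤ z ∧ o z < e ∧
      e ≤ o (z + 1) := by
  classical
  have hid : ∀ i, i ≤ o i := by
    intro i
    induction i with
    | zero => omega
    | succ i ih => have := h.om i; omega
  have hex1 : ∃ i, b < m i := ⟨b + 1, by have := h.om (b + 1); have := hid (b + 1); omega⟩
  have hex2 : ∃ i, e ≤ o (i + 1) := ⟨e, by have := hid (e + 1); omega⟩
  refine ⟨Nat.find hex1, Nat.find hex2, Nat.find_spec hex1, fun i hi => ?_, ?_, ?_,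
    Nat.find_spec hex2⟩
  · have := Nat.find_min hex1 hi
    omega
  · by_contra hlt
    have hlt : Nat.find hex2 < Nat.find hex1 := by omega
    have h1 := Nat.find_min hex1 hlt
    have h2 := Nat.find_spec hex2
    have h3 : Sg v (b + 1) e ≤ 0 :=
      Sg_nonpos v fun t h5 h6 => h.leg (Nat.find hex2) t (by omega) (by omega) (by omega) h6
    omega
  · rcases Nat.eq_zero_or_pos (Nat.find hex2) with h1 | h1
    · rw [h1, h0]; omega
    · have h2 := Nat.find_min hex2 (by omega : Nat.find hex2 - 1 < Nat.find hex2)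
      have h3 : Nat.find hex2 - 1 + 1 = Nat.find hex2 := by omega
      rw [h3] at h2
      omega

end

theorem ar1 (a z a' z' : ℕ) (s s' ε δ ε' δ' : ℤ) (hs : 4 ≤ s) (hs' : 4 ≤ s')
    (hB : 2 * s ≤ 2 * ((z : ℤ) + 1 - a) + ε + δ) (hB' : 2 * s' ≤ 2 * ((z' : ℤ) + 1 - a') + ε' + δ')
    (t1 : z < a' ∨ (z = a' ∧ δ = 0 ∧ ε' = 0)) (t2 : z' < a + 6 ∨ (z' = a + 6 ∧ δ' = 0 ∧ ε = 0))
    (hε : ε = 0 ∨ ε = 1) (hε' : ε' = 0 ∨ ε' = 1) (hδ : δ = 0 ∨ δ = 1) (hδ' : δ' = 0 ∨ δ' = 1) :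
    s = 4 ∧ ((z = a + 2 ∧ ε = 1 ∧ δ = 1) ∨ (z = a + 3 ∧ ε = 0 ∧ δ = 0 ∧ z = a' ∧ z' = a + 6)) := by
  rcases t1 with t1 | ⟨t1, rfl, rfl⟩ <;> rcases t2 with t2 | ⟨t2, rfl, rfl⟩ <;> omega

theorem ar2 (L R ca T c : ℤ) (h4 : L + 2 + ca + T + c + 2 + R = 4) (hL : L ≤ 0) (hR : R ≤ 0)
    (hca : ca ≤ 0) (hc : c ≤ 0) (hT : T ≤ 2) (f1 : ca = 0 → T ≤ 0) (f2 : c = 0 → T ≤ 0)
    (f3 : ca = 0 → c = 0 → T ≤ -1) : T = 2 ∧ ca = -1 ∧ c = -1 := by
  by_cases h1 : ca = 0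
  · have g1 := f1 h1
    by_cases h2 : c = 0
    · have g2 := f3 h1 h2
      omega
    · omega
  · by_cases h2 : c = 0
    · have g2 := f2 h2
      omega
    · omega

theorem ar3 (P ca T c1 U c2 Q : ℤ) (h4 : P + ca + T + c1 + U + c2 + Q = 4) (hP : P ≤ 1)
    (hQ : Q ≤ 1) (hca : ca ≤ 0) (hc1 : c1 ≤ 0) (hc2 : c2 ≤ 0) (hT : T ≤ 2) (hU : U ≤ 2)
    (f1 : T = 2 → ca = 0 → P ≤ -1) (f2 : T = 2 → c1 = 0 → U ≤ 0) (f3 : U = 2 → c1 = 0 → T ≤ 0)
    (f4 : U = 2 → c2 = 0 → Q ≤ -1) : P = 1 ∧ Q = 1 := by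
  by_cases hT2 : T = 2
  · have g1 : P + ca ≤ 0 := by
      by_cases h1 : ca = 0
      · have := f1 hT2 h1
        omega
      · omega
    by_cases h2 : c1 = 0
    · have := f2 hT2 h2
      omega
    · by_cases hU2 : U = 2
      · have g2 : c2 + Q ≤ 0 := by
          by_cases h1 : c2 = 0
          · have := f4 hU2 h1
            omega
          · omega
        omega
      · omega
  · by_cases hU2 : U = 2
    · have g2 : c2 + Q ≤ 0 := by
        by_cases h1 : c2 = 0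
        · have := f4 hU2 h1
          omega
        · omega
      by_cases h2 : c1 = 0
      · have := f3 hU2 h2
        omega
      · omega
    · omega

theorem cnt_block : CntBlockStmt := by
  intro o m b e b' e' v v' M M' Ap Ap' tcm tcp secm secp h0 hpo hpm h h' hbe hbe' heb heb' hs hs'
  rw [Ioo_eq] at hs hs'
  obtain ⟨a, z, ha, ha0, haz, hz, hz1⟩ := touch h h0 hbe hs
  obtain ⟨a', z', ha', ha0', haz', hz', hz1'⟩ := touch h' h0 hbe' hs'
  obtain ⟨ε, δ, hε, hδ, hB⟩ := block_bound h a z (by omega) ha ha0 haz hz hz1 hbe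
  obtain ⟨ε', δ', hε', hδ', hB'⟩ := block_bound h' a' z' (by omega) ha' ha0' haz' hz' hz1' hbe'
  -- first junction
  have hj1 : z < a' ∨ (z = a' ∧ e ≤ m z ∧ o a' ≤ b') := by
    rcases Nat.lt_or_ge z a' with h1 | h1
    · exact Or.inl h1
    · right
      have h2 : z = a' := by
        by_contra h3
        have h4 := om_lt h (show a' < z by omega)
        omega
      exact ⟨h2, by rw [h2]; omega, by rw [← h2]; omega⟩
  -- second junction
  have hj2 : z' < a + 6 ∨ (z' = a + 6 ∧ e' ≤ m z' ∧ o a ≤ b) := by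
    rcases Nat.lt_or_ge z' (a + 6) with h1 | h1
    · exact Or.inl h1
    · right
      have h5 : m (a + 6) = m a + o 6 := hpm a
      have h2 : z' = a + 6 := by
        by_contra h3
        have h4 := om_lt h (show a + 6 < z' by omega)
        omega
      have h6 : o (a + 6) = o a + o 6 := hpo a
      exact ⟨h2, by rw [h2]; omega, by rw [h2] at hz'; omega⟩
  have hTot : (z < a' ∨ (z = a' ∧ δ = 0 ∧ ε' = 0)) ∧ (z' < a + 6 ∨ (z' = a + 6 ∧ δ' = 0 ∧ ε = 0))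
      := by
    constructor
    · rcases hj1 with h1 | ⟨h1, h2, h3⟩
      · exact Or.inl h1
      · right
        refine ⟨h1, ?_, ?_⟩
        · rcases hδ with ⟨h5, _⟩ | ⟨_, h6, _⟩
          · exact h5
          · omega
        · rcases hε' with ⟨h5, _⟩ | ⟨_, h6, _⟩
          · exact h5
          · omega
    · rcases hj2 with h1 | ⟨h1, h2, h3⟩
      · exact Or.inl h1
      · right
        refine ⟨h1, ?_, ?_⟩
        · rcases hδ' with ⟨h5, _⟩ | ⟨_, h6, _⟩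
          · exact h5
          · omega
        · rcases hε with ⟨h5, _⟩ | ⟨_, h6, _⟩
          · exact h5
          · omega
  have hεr : ε = 0 ∨ ε = 1 := by rcases hε with ⟨h, _⟩ | ⟨h, _⟩ <;> omega
  have hεr' : ε' = 0 ∨ ε' = 1 := by rcases hε' with ⟨h, _⟩ | ⟨h, _⟩ <;> omega
  have hδr : δ = 0 ∨ δ = 1 := by rcases hδ with ⟨h, _⟩ | ⟨h, _⟩ <;> omega
  have hδr' : δ' = 0 ∨ δ' = 1 := by rcases hδ' with ⟨h, _⟩ | ⟨h, _⟩ <;> omega
  have hfour : Sg v (b + 1) e = 4 ∧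
      ((z = a + 2 ∧ ε = 1 ∧ δ = 1) ∨ (z = a + 3 ∧ ε = 0 ∧ δ = 0 ∧ z = a' ∧ z' = a + 6)) :=
    ar1 a z a' z' _ _ ε δ ε' δ' hs hs' hB hB' hTot.1 hTot.2 hεr hεr' hδr hδr'
  obtain ⟨h4, hcase⟩ := hfour
  rw [Ioo_eq]
  refine ⟨h4, ?_⟩
  rcases hcase with ⟨hz2, hε1, hδ1⟩ | ⟨hz3, hε1, hδ1, hza, hz6⟩
  · -- three tips
    subst hz2
    have hoa : b < o a ∧ Sg v (o a) (m a + 1) = 2 := by
      rcases hε with ⟨h5, _⟩ | ⟨_, h6⟩
      · omega
      · exact h6
    have hmz : m (a + 2) < e ∧ Sg v (o (a + 2)) (m (a + 2) + 1) = 2 := by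
      rcases hδ with ⟨h5, _⟩ | ⟨_, h6⟩
      · omega
      · exact h6
    have m0 := h.om a
    have m1 := h.om (a + 1)
    have m2 := h.om (a + 2)
    have e1 : a + 1 + 1 = a + 2 := by ring
    rw [e1] at m1
    have hp := pre_nonpos h a (by omega) ha0 hoa.1 (by omega)
    obtain ⟨T1, T2, T3, T4, T5⟩ := tipF h a hoa.1 (by omega) (by omega)
    obtain ⟨U1, U2, U3, U4, U5⟩ := tipF h (a + 1) (by omega) (by omega) (by omega)
    obtain ⟨V1, V2, V3, V4, V5⟩ := tipF h (a + 2) (by omega) (by omega) hmz.1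
    obtain ⟨L1, L2, L3⟩ := legF h a ha (by omega)
    have hL := legF h (a + 1) (by omega) (by rw [e1]; omega)
    rw [e1] at hL
    obtain ⟨K1, K2, K3⟩ := hL
    have e2 : Sg v (m (a + 2) + 1) e ≤ 0 :=
      Sg_nonpos v fun t h4 h5 => h.leg (a + 2) t (by omega) (by omega) (by omega) h5
    have e0 : Sg v (b + 1) e = Sg v (b + 1) (o a) + Sg v (o a) (m a + 1) +
        Sg v (m a + 1) (o (a + 1)) + Sg v (o (a + 1)) (m (a + 1) + 1) +
        Sg v (m (a + 1) + 1) (o (a + 2)) + Sg v (o (a + 2)) (m (a + 2) + 1) +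
        Sg v (m (a + 2) + 1) e := by
      rw [← Sg_add v (by omega) (by omega), ← Sg_add v (by omega) (by omega),
        ← Sg_add v (by omega) (by omega), ← Sg_add v (by omega) (by omega),
        ← Sg_add v (by omega) (by omega), ← Sg_add v (by omega) (by omega)]
    have f1 : Sg v (m a + 1) (o (a + 1)) = 0 → Sg v (o (a + 1)) (m (a + 1) + 1) ≤ 0 :=
      fun h9 => U4 (Or.inl (L2 h9 (T2 hoa.2).2.2))
    have f2 : Sg v (m (a + 1) + 1) (o (a + 2)) = 0 → Sg v (o (a + 1)) (m (a + 1) + 1) ≤ 0 :=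
      fun h9 => U4 (Or.inr (K3 h9 (V2 hmz.2).2.1))
    have f3 : Sg v (m a + 1) (o (a + 1)) = 0 → Sg v (m (a + 1) + 1) (o (a + 2)) = 0 →
        Sg v (o (a + 1)) (m (a + 1) + 1) ≤ -1 :=
      fun h9 h10 => U5 (L2 h9 (T2 hoa.2).2.2) (K3 h10 (V2 hmz.2).2.1)
    have g : Sg v (o (a + 1)) (m (a + 1) + 1) = 2 ∧ Sg v (m a + 1) (o (a + 1)) = -1 ∧
        Sg v (m (a + 1) + 1) (o (a + 2)) = -1 := by
      rw [e0, hoa.2, hmz.2] at h4
      exact ar2 _ _ _ _ _ h4 hp e2 L1 K1 U1 f1 f2 f3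
    obtain ⟨i, rfl⟩ : ∃ i, a = i + 1 := by
      rcases a with _ | i
      · omega
      · exact ⟨i, rfl⟩
    have hT2 := hoa.2
    have hV2 := hmz.2
    refine ⟨i, Or.inl ⟨hoa.1, hmz.1, (U2 g.1).1, ?_, ?_, ?_, ?_⟩⟩
    · rw [Ioo_eq]; exact g.2.1
    · rw [Ioo_eq]; exact g.2.2
    · intro hh
      have h5 := T4 (Or.inr hh)
      linarith
    · intro hh
      have h5 := V4 (Or.inl hh)
      linarith
  · -- four tips
    subst hz3
    have hoa : o a ≤ b := by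
      rcases hj2 with h1 | h1
      · omega
      · exact h1.2.2
    have hez : e ≤ m (a + 3) := by
      rcases hj1 with h1 | h1
      · omega
      · exact h1.2.1
    have m0 := h.om a
    have m1 := h.om (a + 1)
    have m2 := h.om (a + 2)
    have m3 := h.om (a + 3)
    have e1 : a + 1 + 1 = a + 2 := by ring
    have e1' : a + 2 + 1 = a + 3 := by ring
    rw [e1] at m1
    rw [e1'] at m2
    obtain ⟨P1, P2, P3⟩ := leftcut h a hoa ha (by omega)
    obtain ⟨U1, U2, U3, U4, U5⟩ := tipF h (a + 1) (by omega) (by omega) (by omega)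
    obtain ⟨V1, V2, V3, V4, V5⟩ := tipF h (a + 2) (by omega) (by omega) (by omega)
    obtain ⟨Q1, Q2, Q3⟩ := rightcut h (a + 3) (by omega) (by omega) hz hez
    obtain ⟨L1, L2, L3⟩ := legF h a ha (by omega)
    have hL := legF h (a + 1) (by omega) (by rw [e1]; omega)
    rw [e1] at hL
    obtain ⟨K1, K2, K3⟩ := hL
    have hL := legF h (a + 2) (by omega) (by rw [e1']; omega)
    rw [e1'] at hL
    obtain ⟨N1, N2, N3⟩ := hL
    have e0 : Sg v (b + 1) e = Sg v (b + 1) (m a + 1) +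
        Sg v (m a + 1) (o (a + 1)) + Sg v (o (a + 1)) (m (a + 1) + 1) +
        Sg v (m (a + 1) + 1) (o (a + 2)) + Sg v (o (a + 2)) (m (a + 2) + 1) +
        Sg v (m (a + 2) + 1) (o (a + 3)) + Sg v (o (a + 3)) e := by
      rw [← Sg_add v (by omega) (by omega), ← Sg_add v (by omega) (by omega),
        ← Sg_add v (by omega) (by omega), ← Sg_add v (by omega) (by omega),
        ← Sg_add v (by omega) (by omega), ← Sg_add v (by omega) (by omega)]
    have f1 : Sg v (o (a + 1)) (m (a + 1) + 1) = 2 → Sg v (m a + 1) (o (a + 1)) = 0 →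
        Sg v (b + 1) (m a + 1) ≤ -1 := fun h8 h9 => P2 (L3 h9 (U2 h8).2.1)
    have f2 : Sg v (o (a + 1)) (m (a + 1) + 1) = 2 → Sg v (m (a + 1) + 1) (o (a + 2)) = 0 →
        Sg v (o (a + 2)) (m (a + 2) + 1) ≤ 0 := fun h8 h9 => V4 (Or.inl (K2 h9 (U2 h8).2.2))
    have f3 : Sg v (o (a + 2)) (m (a + 2) + 1) = 2 → Sg v (m (a + 1) + 1) (o (a + 2)) = 0 →
        Sg v (o (a + 1)) (m (a + 1) + 1) ≤ 0 := fun h8 h9 => U4 (Or.inr (K3 h9 (V2 h8).2.1))
    have f4 : Sg v (o (a + 2)) (m (a + 2) + 1) = 2 → Sg v (m (a + 2) + 1) (o (a + 3)) = 0 →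
        Sg v (o (a + 3)) e ≤ -1 := fun h8 h9 => Q2 (N2 h9 (V2 h8).2.2)
    have g : Sg v (b + 1) (m a + 1) = 1 ∧ Sg v (o (a + 3)) e = 1 := by
      rw [e0] at h4
      exact ar3 _ _ _ _ _ _ _ h4 P1 Q1 L1 K1 N1 U1 V1 f1 f2 f3 f4
    exact ⟨a, Or.inr ⟨hoa, (P3 g.1).1, (Q3 g.2).1, (P3 g.1).2, (Q3 g.2).2⟩⟩

/-- the cyclic count -/
theorem cyc (t g : ℕ → ℤ) (ht : ∀ i, t i ≤ 2) (hg : ∀ i, g i ≤ 0)
    (F1 : ∀ i, t i = 2 → g i = 0 → t (i + 1) ≤ 0) (F2 : ∀ i, t (i + 1) = 2 → g i = 0 → t i ≤ 0)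
    (F3 : ∀ i, t i = 2 → g i = 0 → t (i + 2) = 2 → g (i + 1) = 0 → t (i + 1) ≤ -1)
    (pt : ∀ i, t (i + 6) = t i) (pg : ∀ i, g (i + 6) = g i)
    (hs : 6 ≤ t 0 + g 0 + (t 1 + g 1) + (t 2 + g 2) + (t 3 + g 3) + (t 4 + g 4) + (t 5 + g 5)) :
    (∀ i, t i = 2 ∧ g i = -1) ∨ (∀ i, t i = 1 ∧ g i = 0) := by
  classical
  -- the charges
  obtain ⟨al, hal⟩ : ∃ al : ℕ → ℤ, ∀ i, (t i = 2 ∧ al i = 1) ∨ (t i ≠ 2 ∧ al i = 0) :=
    ⟨fun i => if t i = 2 then 1 else 0, fun i => by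
      by_cases h : t i = 2
      · left; simp [h]
      · right; simp [h]⟩
  obtain ⟨mu, hmu⟩ : ∃ mu : ℕ → ℤ, ∀ i, (t i = 2 ∧ g i = 0 ∧ mu i = 1) ∨
      (¬ (t i = 2 ∧ g i = 0) ∧ mu i = 0) :=
    ⟨fun i => if t i = 2 ∧ g i = 0 then 1 else 0, fun i => by
      by_cases h : t i = 2 ∧ g i = 0
      · left; exact ⟨h.1, h.2, by simp [h]⟩
      · right; exact ⟨h, by simp only [h, if_false]⟩⟩
  obtain ⟨ps, hps⟩ : ∃ ps : ℕ → ℤ, ∀ i, (t (i + 1) = 2 ∧ g i = 0 ∧ ps i = 1) ∨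
      (¬ (t (i + 1) = 2 ∧ g i = 0) ∧ ps i = 0) :=
    ⟨fun i => if t (i + 1) = 2 ∧ g i = 0 then 1 else 0, fun i => by
      by_cases h : t (i + 1) = 2 ∧ g i = 0
      · left; exact ⟨h.1, h.2, by simp [h]⟩
      · right; exact ⟨h, by simp only [h, if_false]⟩⟩
  have tip : ∀ i, 2 * t (i + 1) - 2 * al (i + 1) + mu i + ps (i + 1) ≤ 2 ∧
      (2 * t (i + 1) - 2 * al (i + 1) + mu i + ps (i + 1) = 2 → t (i + 1) = 1 ∨ t (i + 1) = 2) := by
    intro i
    have a1 := hal (i + 1)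
    have a2 := hmu i
    have a3 := hps (i + 1)
    have b1 := F1 i
    have b2 := F2 (i + 1)
    have b3 := F3 i
    have b4 := ht (i + 1)
    have e1 : i + 1 + 1 = i + 2 := by ring
    rw [e1] at a3 b2
    clear hal hmu hps F1 F2 F3 pt pg hs ht hg
    generalize t i = x0 at *
    generalize t (i + 1) = x1 at *
    generalize t (i + 2) = x2 at *
    generalize g i = y0 at *
    generalize g (i + 1) = y1 at *
    rcases a1 with ⟨a1, c1⟩ | ⟨a1, c1⟩ <;> rcases a2 with ⟨a2, a2', c2⟩ | ⟨a2, c2⟩ <;>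
      rcases a3 with ⟨a3, a3', c3⟩ | ⟨a3, c3⟩ <;> rw [c1, c2, c3]
    · have d1 := b1 a2 a2'
      omega
    · have d1 := b1 a2 a2'
      omega
    · have d1 := b2 a3 a3'
      omega
    · omega
    · have d1 := b3 a2 a2' a3 a3'
      omega
    · have d1 := b1 a2 a2'
      omega
    · have d1 := b2 a3 a3'
      omega
    · omega
  have side : ∀ i, 2 * g i + al i - mu i + al (i + 1) - ps i ≤ 0 ∧
      (2 * g i + al i - mu i + al (i + 1) - ps i = 0 → g i = 0 ∨ (g i = -1 ∧ t i = 2 ∧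
        t (i + 1) = 2)) := by
    intro i
    have a0 := hal i
    have a1 := hal (i + 1)
    have a2 := hmu i
    have a3 := hps i
    have b1 := F1 i
    have b2 := F2 i
    have b4 := hg i
    clear hal hmu hps F1 F2 F3 pt pg hs ht hg tip
    generalize t i = x0 at *
    generalize t (i + 1) = x1 at *
    generalize g i = y0 at *
    rcases a0 with ⟨a0, c0⟩ | ⟨a0, c0⟩ <;> rcases a1 with ⟨a1, c1⟩ | ⟨a1, c1⟩ <;>
      rcases a2 with ⟨a2, a2', c2⟩ | ⟨a2, c2⟩ <;>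
      rcases a3 with ⟨a3, a3', c3⟩ | ⟨a3, c3⟩ <;> rw [c0, c1, c2, c3] <;> omega
  have e6 : al 6 = al 0 := by
    have a0 := hal 0
    have a1 := hal 6
    have b := pt 0
    norm_num at b
    omega
  have p6 : ps 6 = ps 0 := by
    have a0 := hps 0
    have a1 := hps 6
    have b := pt 1
    have c := pg 0
    norm_num at b c a0 a1
    omega
  have t6 : t 6 = t 0 := by have := pt 0; norm_num at this; exact this
  have hb : (t 0 = 2 ∧ g 0 = -1 ∧ t 1 = 2 ∧ g 1 = -1 ∧ t 2 = 2 ∧ g 2 = -1 ∧ t 3 = 2 ∧ g 3 = -1 ∧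
      t 4 = 2 ∧ g 4 = -1 ∧ t 5 = 2 ∧ g 5 = -1) ∨
      (t 0 = 1 ∧ g 0 = 0 ∧ t 1 = 1 ∧ g 1 = 0 ∧ t 2 = 1 ∧ g 2 = 0 ∧ t 3 = 1 ∧ g 3 = 0 ∧
      t 4 = 1 ∧ g 4 = 0 ∧ t 5 = 1 ∧ g 5 = 0) := by
    have k0 := tip 0
    have k1 := tip 1
    have k2 := tip 2
    have k3 := tip 3
    have k4 := tip 4
    have k5 := tip 5
    have l0 := side 0
    have l1 := side 1
    have l2 := side 2
    have l3 := side 3
    have l4 := side 4
    have l5 := side 5
    norm_num at k0 k1 k2 k3 k4 k5 l0 l1 l2 l3 l4 l5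
    have q0 := k0.2 (by linarith [k1.1, k2.1, k3.1, k4.1, k5.1, l0.1, l1.1, l2.1, l3.1, l4.1, l5.1])
    have q1 := k1.2 (by linarith [k0.1, k2.1, k3.1, k4.1, k5.1, l0.1, l1.1, l2.1, l3.1, l4.1, l5.1])
    have q2 := k2.2 (by linarith [k0.1, k1.1, k3.1, k4.1, k5.1, l0.1, l1.1, l2.1, l3.1, l4.1, l5.1])
    have q3 := k3.2 (by linarith [k0.1, k1.1, k2.1, k4.1, k5.1, l0.1, l1.1, l2.1, l3.1, l4.1, l5.1])
    have q4 := k4.2 (by linarith [k0.1, k1.1, k2.1, k3.1, k5.1, l0.1, l1.1, l2.1, l3.1, l4.1, l5.1])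
    have q5 := k5.2 (by linarith [k0.1, k1.1, k2.1, k3.1, k4.1, l0.1, l1.1, l2.1, l3.1, l4.1, l5.1])
    have r0 := l0.2 (by linarith [k0.1, k1.1, k2.1, k3.1, k4.1, k5.1, l1.1, l2.1, l3.1, l4.1, l5.1])
    have r1 := l1.2 (by linarith [k0.1, k1.1, k2.1, k3.1, k4.1, k5.1, l0.1, l2.1, l3.1, l4.1, l5.1])
    have r2 := l2.2 (by linarith [k0.1, k1.1, k2.1, k3.1, k4.1, k5.1, l0.1, l1.1, l3.1, l4.1, l5.1])
    have r3 := l3.2 (by linarith [k0.1, k1.1, k2.1, k3.1, k4.1, k5.1, l0.1, l1.1, l2.1, l4.1, l5.1])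
    have r4 := l4.2 (by linarith [k0.1, k1.1, k2.1, k3.1, k4.1, k5.1, l0.1, l1.1, l2.1, l3.1, l5.1])
    have r5 := l5.2 (by linarith [k0.1, k1.1, k2.1, k3.1, k4.1, k5.1, l0.1, l1.1, l2.1, l3.1, l4.1])
    have f0 := F1 0
    have f1 := F1 1
    have f2 := F1 2
    have f3 := F1 3
    have f4 := F1 4
    have f5 := F1 5
    norm_num at f0 f1 f2 f3 f4 f5
    clear k0 k1 k2 k3 k4 k5 l0 l1 l2 l3 l4 l5 hs tip side
    rw [t6] at q5 f5 r5
    rcases q5 with h0 | h0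
    · -- t 0 = 1
      right
      have s0 : g 0 = 0 := by rcases r0 with h | h; exact h; omega
      have s5 : g 5 = 0 := by rcases r5 with h | h; exact h; omega
      have u5 : t 5 = 1 := by rcases q4 with h | h; exact h; have := f5 h s5; omega
      have s4 : g 4 = 0 := by rcases r4 with h | h; exact h; omega
      have u4 : t 4 = 1 := by rcases q3 with h | h; exact h; have := f4 h s4; omega
      have s3 : g 3 = 0 := by rcases r3 with h | h; exact h; omega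
      have u3 : t 3 = 1 := by rcases q2 with h | h; exact h; have := f3 h s3; omega
      have s2 : g 2 = 0 := by rcases r2 with h | h; exact h; omega
      have u2 : t 2 = 1 := by rcases q1 with h | h; exact h; have := f2 h s2; omega
      have s1 : g 1 = 0 := by rcases r1 with h | h; exact h; omega
      have u1 : t 1 = 1 := by rcases q0 with h | h; exact h; have := f1 h s1; omega
      exact ⟨h0, s0, u1, s1, u2, s2, u3, s3, u4, s4, u5, s5⟩
    · left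
      have s0 : g 0 = -1 ∧ t 1 = 2 := by
        rcases r0 with h | h
        · have := f0 h0 h; omega
        · exact ⟨h.1, h.2.2⟩
      have s1 : g 1 = -1 ∧ t 2 = 2 := by
        rcases r1 with h | h
        · have := f1 s0.2 h; omega
        · exact ⟨h.1, h.2.2⟩
      have s2 : g 2 = -1 ∧ t 3 = 2 := by
        rcases r2 with h | h
        · have := f2 s1.2 h; omega
        · exact ⟨h.1, h.2.2⟩
      have s3 : g 3 = -1 ∧ t 4 = 2 := by
        rcases r3 with h | h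
        · have := f3 s2.2 h; omega
        · exact ⟨h.1, h.2.2⟩
      have s4 : g 4 = -1 ∧ t 5 = 2 := by
        rcases r4 with h | h
        · have := f4 s3.2 h; omega
        · exact ⟨h.1, h.2.2⟩
      have s5 : g 5 = -1 := by
        rcases r5 with h | h
        · have := f5 s4.2 h; omega
        · exact h.1
      exact ⟨h0, s0.1, s0.2, s1.1, s1.2, s2.1, s2.2, s3.1, s3.2, s4.1, s4.2, s5⟩
  have hmt : ∀ i, t (i % 6) = t i := fun i => Function.Periodic.map_mod_nat (fun j => pt j) i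
  have hmg : ∀ i, g (i % 6) = g i := fun i => Function.Periodic.map_mod_nat (fun j => pg j) i
  rcases hb with hb | hb
  · left
    intro i
    rw [← hmt i, ← hmg i]
    obtain ⟨a0, b0, a1, b1, a2, b2, a3, b3, a4, b4, a5, b5⟩ := hb
    have h6 : i % 6 < 6 := Nat.mod_lt _ (by norm_num)
    interval_cases (i % 6)
    · exact ⟨a0, b0⟩
    · exact ⟨a1, b1⟩
    · exact ⟨a2, b2⟩
    · exact ⟨a3, b3⟩
    · exact ⟨a4, b4⟩
    · exact ⟨a5, b5⟩
  · right
    intro i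
    rw [← hmt i, ← hmg i]
    obtain ⟨a0, b0, a1, b1, a2, b2, a3, b3, a4, b4, a5, b5⟩ := hb
    have h6 : i % 6 < 6 := Nat.mod_lt _ (by norm_num)
    interval_cases (i % 6)
    · exact ⟨a0, b0⟩
    · exact ⟨a1, b1⟩
    · exact ⟨a2, b2⟩
    · exact ⟨a3, b3⟩
    · exact ⟨a4, b4⟩
    · exact ⟨a5, b5⟩

theorem cnt_whole : CntWholeStmt := by
  intro o m v M Ap tcm tcp secm secp h0 hpo hpm h hm7 hp7 hv hs
  have hom := fun i => (h 0).om i
  have hpos : ∀ i, 1 ≤ i → 0 < o i := by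
    intro i hi
    obtain ⟨k, rfl⟩ : ∃ k, i = k + 1 := ⟨i - 1, by omega⟩
    have := hom k
    omega
  have hT : ∀ j, 1 ≤ j → Sg v (o j) (m j + 1) ≤ 2 ∧
      (Sg v (o j) (m j + 1) = 2 → M j ∧ secm j ∧ secp j) ∧
      (Sg v (o j) (m j + 1) = 1 → Ap j ∨ (secm j ∧ secp j)) ∧
      (tcm j ∨ tcp j → Sg v (o j) (m j + 1) ≤ 0) ∧
      (tcm j → tcp j → Sg v (o j) (m j + 1) ≤ -1) := fun j hj =>
    tipF (h (m j + 1)) j (hpos j hj) (by omega) (by omega)
  have hL : ∀ j, 1 ≤ j → Sg v (m j + 1) (o (j + 1)) ≤ 0 ∧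
      (Sg v (m j + 1) (o (j + 1)) = 0 → secp j → tcm (j + 1)) ∧
      (Sg v (m j + 1) (o (j + 1)) = 0 → secm (j + 1) → tcp j) := fun j hj =>
    legF (h (o (j + 1) + 1)) j (by have := hom j; have := hpos j hj; omega) (by omega)
  have hper : ∀ x y, Sg v (x + o 6) (y + o 6) = Sg v x y := by
    intro x y
    unfold Sg
    rw [← Finset.sum_Ico_add']
    exact Finset.sum_congr rfl fun t _ => hv t
  have key := cyc (fun i => Sg v (o (i + 1)) (m (i + 1) + 1))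
    (fun i => Sg v (m (i + 1) + 1) (o (i + 2))) (fun i => (hT (i + 1) (by omega)).1)
    (fun i => (hL (i + 1) (by omega)).1) ?_ ?_ ?_ ?_ ?_ ?_
  · rcases key with hk | hk
    · left
      have k0 : Sg v (o 1) (m 1 + 1) = 2 := (hk 0).1
      have k2 : Sg v (o 3) (m 3 + 1) = 2 := (hk 2).1
      refine ⟨0, ((hT 2 (by norm_num)).2.1 (hk 1).1).1, ?_, ?_, ?_, ?_⟩
      · rw [Ioo_eq]; exact (hk 0).2
      · rw [Ioo_eq]; exact (hk 1).2
      · intro hh
        have h5 := (hT 1 (by norm_num)).2.2.2.1 (Or.inr hh)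
        linarith
      · intro hh
        have h5 := (hT 3 (by norm_num)).2.2.2.1 (Or.inl hh)
        linarith
    · right
      intro i
      obtain ⟨T1, T2, T3, T4, T5⟩ := hT (i + 1) (by omega)
      obtain ⟨L1, L2, L3⟩ := hL (i + 1) (by omega)
      have k1 : Sg v (o (i + 1)) (m (i + 1) + 1) = 1 ∧ Sg v (m (i + 1) + 1) (o (i + 2)) = 0 := hk i
      have k2 : Sg v (o (i + 1 + 1)) (m (i + 1 + 1) + 1) = 1 ∧ _ := hk (i + 1)
      have n1 : ¬ tcm (i + 1) := fun hh => by have := T4 (Or.inl hh); omega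
      have n2 : ¬ tcp (i + 1) := fun hh => by have := T4 (Or.inr hh); omega
      refine ⟨?_, by rw [Ioo_eq]; exact k1.2, n1, n2⟩
      rcases T3 k1.1 with h1 | h1
      · exact h1
      · have h2 := L2 k1.2 h1.2
        have h3 := (hT (i + 1 + 1) (by omega)).2.2.2.1 (Or.inl h2)
        omega
  · intro i h1 h2
    exact (hT (i + 1 + 1) (by omega)).2.2.2.1
      (Or.inl ((hL (i + 1) (by omega)).2.1 h2 ((hT (i + 1) (by omega)).2.1 h1).2.2))
  · intro i h1 h2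
    exact (hT (i + 1) (by omega)).2.2.2.1
      (Or.inr ((hL (i + 1) (by omega)).2.2 h2 ((hT (i + 1 + 1) (by omega)).2.1 h1).2.1))
  · intro i h1 h2 h3 h4
    exact (hT (i + 1 + 1) (by omega)).2.2.2.2
      ((hL (i + 1) (by omega)).2.1 h2 ((hT (i + 1) (by omega)).2.1 h1).2.2)
      ((hL (i + 1 + 1) (by omega)).2.2 h4 ((hT (i + 1 + 1 + 1) (by omega)).2.1 h3).2.1)
  · intro i
    have e1 : i + 6 + 1 = i + 1 + 6 := by ring
    have e2 : m (i + 1) + o 6 + 1 = m (i + 1) + 1 + o 6 := by ring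
    show Sg v (o (i + 6 + 1)) (m (i + 6 + 1) + 1) = Sg v (o (i + 1)) (m (i + 1) + 1)
    rw [e1, hpo (i + 1), hpm (i + 1), e2, hper]
  · intro i
    have e1 : i + 6 + 1 = i + 1 + 6 := by ring
    have e3 : i + 6 + 2 = i + 2 + 6 := by ring
    have e2 : m (i + 1) + o 6 + 1 = m (i + 1) + 1 + o 6 := by ring
    show Sg v (m (i + 6 + 1) + 1) (o (i + 6 + 2)) = Sg v (m (i + 1) + 1) (o (i + 2))
    rw [e1, e3, hpo (i + 2), hpm (i + 1), e2, hper]
  · have m0 := hom 0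
    have m1 := hom 1
    have m2 := hom 2
    have m3 := hom 3
    have m4 := hom 4
    have m5 := hom 5
    have m6 := hom 6
    norm_num at m0 m1 m2 m3 m4 m5 m6
    have o7 : o 7 = o 1 + o 6 := hpo 1
    have hs' : ∑ t ∈ Finset.range (o 6), v t = Sg v (o 1) (o 7) := by
      rw [Finset.range_eq_Ico]
      change Sg v 0 (o 6) = _
      rw [Sg_add v (show o 1 ≤ o 6 by omega) (show o 6 ≤ o 7 by omega),
        Sg_add v (show 0 ≤ o 1 by omega) (show o 1 ≤ o 6 by omega), o7]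
      have := hper 0 (o 1)
      rw [zero_add] at this
      rw [this]
      ring
    have e0 : Sg v (o 1) (o 7) = Sg v (o 1) (m 1 + 1) + Sg v (m 1 + 1) (o 2) +
        Sg v (o 2) (m 2 + 1) + Sg v (m 2 + 1) (o 3) + Sg v (o 3) (m 3 + 1) +
        Sg v (m 3 + 1) (o 4) + Sg v (o 4) (m 4 + 1) + Sg v (m 4 + 1) (o 5) +
        Sg v (o 5) (m 5 + 1) + Sg v (m 5 + 1) (o 6) + Sg v (o 6) (m 6 + 1) +
        Sg v (m 6 + 1) (o 7) := by
      rw [← Sg_add v (by omega) (by omega), ← Sg_add v (by omega) (by omega),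
        ← Sg_add v (by omega) (by omega), ← Sg_add v (by omega) (by omega),
        ← Sg_add v (by omega) (by omega), ← Sg_add v (by omega) (by omega),
        ← Sg_add v (by omega) (by omega), ← Sg_add v (by omega) (by omega),
        ← Sg_add v (by omega) (by omega), ← Sg_add v (by omega) (by omega),
        ← Sg_add v (by omega) (by omega)]
    rw [hs', e0] at hs
    norm_num
    linarith

end Pool.Agent.ABA.B.H99
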